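import Mathlib

/-!
# MP_d97d98_co : infinite graphs do not represent more finite groups than finite ones

Every finite group that is the automorphism group of some graph (finite or infinite, of any
cardinality) without subcontraction to `K_k` is a retract (a quotient, with a section) of the
automorphism group of a finite graph without subcontraction to `K_k`.
-/

namespace Pool.Agent.Results.MP_d97d98_co.FiniteWitness

universe u v

/-- `f` is a contraction of the graph `X` onto the graph `Y`: two distinct vertices `a, b` of `Y` are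
adjacent exactly when they are the images of two adjacent vertices of `X`, and every fibre of `f`
induces a (nonempty) connected subgraph of `X`. -/
def IsContraction {V W : Type u} (X : SimpleGraph V) (Y : SimpleGraph W) (f : V → W) : Prop :=
  (∀ a b : W, Y.Adj a b ↔ a ≠ b ∧ ∃ x y : V, f x = a ∧ f y = b ∧ X.Adj x y) ∧
  ∀ a : W, (X.induce (f ⁻¹' {a})).Connected

/-- `X` has a subcontraction to the complete graph on `k` vertices: some contraction `Y` of `X`
contains `k` pairwise adjacent vertices. -/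
def HasSubcontractionToK (k : ℕ) {V : Type u} (X : SimpleGraph V) : Prop :=
  ∃ (W : Type u) (Y : SimpleGraph W) (f : V → W) (e : Fin k → W),
    IsContraction X Y f ∧ Function.Injective e ∧ ∀ i j : Fin k, i ≠ j → Y.Adj (e i) (e j)

/-! ### Models of complete graphs (branch sets) -/

/-- A model of `K_k` in `X` by branch sets. -/
def HasModel (k : ℕ) {V : Type u} (X : SimpleGraph V) : Prop :=
  ∃ B : Fin k → Set V, (∀ i, (X.induce (B i)).Connected) ∧
    (∀ i j, i ≠ j → Disjoint (B i) (B j)) ∧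
    ∀ i j, i ≠ j → ∃ x ∈ B i, ∃ y ∈ B j, X.Adj x y

theorem hasModel_of_hasSub {k : ℕ} {V : Type u} {X : SimpleGraph V}
    (h : HasSubcontractionToK k X) : HasModel k X := by
  obtain ⟨W, Y, f, e, ⟨hadj, hconn⟩, he, hK⟩ := h
  refine ⟨fun i => f ⁻¹' {e i}, fun i => hconn (e i), ?_, ?_⟩
  · intro i j hij
    rw [Set.disjoint_left]
    intro x hx hx'
    simp only [Set.mem_preimage, Set.mem_singleton_iff] at hx hx'
    exact hij (he (hx.symm.trans hx'))
  · intro i j hij
    obtain ⟨_, x, y, hx, hy, hxy⟩ := (hadj _ _).1 (hK i j hij)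
    exact ⟨x, hx, y, hy, hxy⟩

theorem hasSub_of_hasModel {k : ℕ} {V : Type u} {X : SimpleGraph V}
    (h : HasModel k X) : HasSubcontractionToK k X := by
  classical
  obtain ⟨B, hconn, hdisj, hadj⟩ := h
  have hne : ∀ i, ∃ x, x ∈ B i := by
    intro i
    obtain ⟨x⟩ := (hconn i).nonempty
    exact ⟨x.1, x.2⟩
  choose b hb using hne
  have huniq : ∀ i j x, x ∈ B i → x ∈ B j → i = j := by
    intro i j x hi hj
    by_contra hij
    exact Set.disjoint_left.1 (hdisj i j hij) hi hj
  let F : V → V := fun x => if h : ∃ i, x ∈ B i then b h.choose else x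
  have hF1 : ∀ i x, x ∈ B i → F x = b i := by
    intro i x hx
    have h : ∃ i, x ∈ B i := ⟨i, hx⟩
    have : h.choose = i := huniq _ _ x h.choose_spec hx
    simp only [F, dif_pos h, this]
  have hF2 : ∀ x, (¬ ∃ i, x ∈ B i) → F x = x := by
    intro x hx
    simp only [F, dif_neg hx]
  let W := {a : V // ∃ x, F x = a}
  let f : V → W := fun x => ⟨F x, x, rfl⟩
  let Y : SimpleGraph W :=
    { Adj := fun a b => a ≠ b ∧ ∃ x y : V, f x = a ∧ f y = b ∧ X.Adj x y
      symm := ⟨fun a b ⟨h, x, y, hx, hy, hxy⟩ => ⟨h.symm, y, x, hy, hx, hxy.symm⟩⟩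
      loopless := ⟨fun a h => h.1 rfl⟩ }
  refine ⟨W, Y, f, fun i => f (b i), ⟨fun a b => Iff.rfl, ?_⟩, ?_, ?_⟩
  · rintro ⟨a, x, rfl⟩
    by_cases hx : ∃ i, x ∈ B i
    · obtain ⟨i, hi⟩ := hx
      have hset : f ⁻¹' {⟨F x, x, rfl⟩} = B i := by
        ext y
        have hfy : y ∈ f ⁻¹' {⟨F x, x, rfl⟩} ↔ F y = F x := by
          constructor
          · intro h
            exact congrArg Subtype.val h
          · intro h
            exact Subtype.ext h
        rw [hfy, hF1 i x hi]
        constructor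
        · intro hy
          by_cases hy' : ∃ j, y ∈ B j
          · obtain ⟨j, hj⟩ := hy'
            rw [hF1 j y hj] at hy
            have : b j ∈ B i := hy ▸ hb i
            have hji := huniq _ _ _ (hb j) this
            subst hji
            exact hj
          · rw [hF2 y hy'] at hy
            exact absurd ⟨i, hy ▸ hb i⟩ hy'
        · intro hy
          exact hF1 i y hy
      rw [hset]
      exact hconn i
    · have hset : f ⁻¹' {⟨F x, x, rfl⟩} = {x} := by
        ext y
        have hfy : y ∈ f ⁻¹' {⟨F x, x, rfl⟩} ↔ F y = F x := by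
          constructor
          · intro h
            exact congrArg Subtype.val h
          · intro h
            exact Subtype.ext h
        rw [hfy, hF2 x hx]
        constructor
        · intro hy
          by_cases hy' : ∃ j, y ∈ B j
          · obtain ⟨j, hj⟩ := hy'
            rw [hF1 j y hj] at hy
            exact absurd ⟨j, hy ▸ hb j⟩ hx
          · rw [hF2 y hy'] at hy
            exact hy
        · intro hy
          subst hy
          exact hF2 y hx
      rw [hset]
      have : Nonempty ({x} : Set V) := ⟨⟨x, rfl⟩⟩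
      have : Subsingleton ({x} : Set V) := ⟨fun p q => Subtype.ext (p.2.trans q.2.symm)⟩
      exact ⟨fun p q => by rw [Subsingleton.elim p q]⟩
  · intro i j hij
    have h1 : F (b i) = F (b j) := congrArg Subtype.val hij
    rw [hF1 i _ (hb i), hF1 j _ (hb j)] at h1
    exact huniq _ _ _ (hb i) (h1 ▸ hb j)
  · intro i j hij
    obtain ⟨x, hx, y, hy, hxy⟩ := hadj i j hij
    refine ⟨?_, x, y, ?_, ?_, hxy⟩
    · intro h
      have h1 : F (b i) = F (b j) := congrArg Subtype.val h
      rw [hF1 i _ (hb i), hF1 j _ (hb j)] at h1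
      exact hij (huniq _ _ _ (hb i) (h1 ▸ hb j))
    · exact Subtype.ext ((hF1 i x hx).trans (hF1 i _ (hb i)).symm)
    · exact Subtype.ext ((hF1 j y hy).trans (hF1 j _ (hb j)).symm)

/-- Models are transported by isomorphisms (across universes). -/
theorem hasModel_iso {k : ℕ} {V : Type u} {W : Type v} {X : SimpleGraph V} {Y : SimpleGraph W}
    (e : X ≃g Y) (h : HasModel k X) : HasModel k Y := by
  obtain ⟨B, hconn, hdisj, hadj⟩ := h
  refine ⟨fun i => e '' (B i), fun i => ?_, fun i j hij => ?_, fun i j hij => ?_⟩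
  · have hi := hconn i
    let φ : X.induce (B i) →g Y.induce (e '' (B i)) :=
      { toFun := fun x => ⟨e x.1, x.1, x.2, rfl⟩
        map_rel' := by
          intro a b hab
          exact e.map_adj_iff.2 hab }
    have hφ : Function.Surjective φ := by
      rintro ⟨_, x, hx, rfl⟩
      exact ⟨⟨x, hx⟩, rfl⟩
    exact hi.map φ hφ
  · rw [Set.disjoint_left]
    rintro _ ⟨x, hx, rfl⟩ ⟨y, hy, hxy⟩
    have : y = x := e.injective hxy
    subst this
    exact Set.disjoint_left.1 (hdisj i j hij) hx hy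
  · obtain ⟨x, hx, y, hy, hxy⟩ := hadj i j hij
    exact ⟨e x, ⟨x, hx, rfl⟩, e y, ⟨y, hy, rfl⟩, e.map_adj_iff.2 hxy⟩

/-- A graph with an edge has models of `K_0`, `K_1`, `K_2`. -/
theorem hasModel_of_edge {k : ℕ} (hk : k ≤ 2) {V : Type u} {X : SimpleGraph V} {a b : V}
    (hab : X.Adj a b) : HasModel k X := by
  refine ⟨fun i => if i.1 = 0 then {a} else {b}, fun i => ?_, fun i j hij => ?_, fun i j hij => ?_⟩
  · have key : ∀ x : V, (X.induce ({x} : Set V)).Connected := by
      intro x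
      have : Nonempty ({x} : Set V) := ⟨⟨x, rfl⟩⟩
      have : Subsingleton ({x} : Set V) := ⟨fun p q => Subtype.ext (p.2.trans q.2.symm)⟩
      exact ⟨fun p q => by rw [Subsingleton.elim p q]⟩
    by_cases hi : i.1 = 0
    · have h := key a
      rwa [← if_pos (α := Set V) (t := {a}) (e := {b}) hi] at h
    · have h := key b
      rwa [← if_neg (α := Set V) (t := {a}) (e := {b}) hi] at h
  · have hij' : i.1 ≠ j.1 := fun h => hij (Fin.ext h)
    have hi := i.2
    have hj := j.2
    rcases Nat.eq_zero_or_pos i.1 with h0 | h0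
    · have h1 : j.1 ≠ 0 := by omega
      simp only [h0, h1, if_true, if_false]
      rw [Set.disjoint_singleton]
      exact hab.ne
    · have h1 : j.1 = 0 := by omega
      have h2 : i.1 ≠ 0 := by omega
      simp only [h2, h1, if_true, if_false]
      rw [Set.disjoint_singleton]
      exact hab.ne'
  · have hij' : i.1 ≠ j.1 := fun h => hij (Fin.ext h)
    have hi := i.2
    have hj := j.2
    rcases Nat.eq_zero_or_pos i.1 with h0 | h0
    · have h1 : j.1 ≠ 0 := by omega
      simp only [h0, h1, if_true, if_false]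
      exact ⟨a, rfl, b, rfl, hab⟩
    · have h1 : j.1 = 0 := by omega
      have h2 : i.1 ≠ 0 := by omega
      simp only [h2, h1, if_true, if_false]
      exact ⟨b, rfl, a, rfl, hab.symm⟩

/-! ### Compactness -/

section Compactness

variable {V : Type u} (X : SimpleGraph V)

/-- The smallest invariant set containing `S`. -/
def sat (S : Set V) : Set V := {v | ∃ g : X ≃g X, ∃ w ∈ S, g w = v}

theorem subset_sat (S : Set V) : S ⊆ sat X S := fun v hv => ⟨1, v, hv, rfl⟩

theorem sat_mono {S T : Set V} (h : S ⊆ T) : sat X S ⊆ sat X T := by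
  rintro v ⟨g, w, hw, rfl⟩
  exact ⟨g, w, h hw, rfl⟩

theorem sat_invariant (S : Set V) (g : X ≃g X) {v : V} (hv : v ∈ sat X S) : g v ∈ sat X S := by
  obtain ⟨h, w, hw, rfl⟩ := hv
  exact ⟨g * h, w, hw, rfl⟩

theorem sat_finite [Finite (X ≃g X)] {S : Set V} (hS : S.Finite) : (sat X S).Finite := by
  have h : sat X S = ⋃ g : X ≃g X, (fun w => g w) '' S := by
    ext v
    simp only [sat, Set.mem_ofPred_eq, Set.mem_iUnion, Set.mem_image]
  rw [h]
  exact Set.finite_iUnion (fun g => hS.image _)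

theorem compactness [Finite (X ≃g X)] (S : Set V) (hS : S.Finite) :
    ∃ T : Set V, T.Finite ∧ S ⊆ T ∧ (∀ g : X ≃g X, ∀ v ∈ T, g v ∈ T) ∧
      ∀ σ : V → V, (∀ v ∈ T, ∃ g : X ≃g X, g v = σ v) →
        (∀ a ∈ T, ∀ b ∈ T, X.Adj (σ a) (σ b) ↔ X.Adj a b) → (∀ a ∈ T, ∀ b ∈ T, σ a = σ b → a = b) →
        ∃ g : X ≃g X, ∀ v ∈ S, g v = σ v := by
  classical
  by_contra hcon
  push Not at hcon
  have hstep : ∀ F : Finset V, ∃ σ : V → V,
      (∀ v ∈ sat X ((F : Set V) ∪ S), ∃ g : X ≃g X, g v = σ v) ∧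
      (∀ a ∈ sat X ((F : Set V) ∪ S), ∀ b ∈ sat X ((F : Set V) ∪ S),
        (X.Adj (σ a) (σ b) ↔ X.Adj a b)) ∧
      (∀ a ∈ sat X ((F : Set V) ∪ S), ∀ b ∈ sat X ((F : Set V) ∪ S), σ a = σ b → a = b) ∧
      ∀ g : X ≃g X, ∃ v ∈ S, g v ≠ σ v := by
    intro F
    obtain ⟨σ, h1, h2, h3, h4⟩ := hcon (sat X ((F : Set V) ∪ S))
      (sat_finite X (F.finite_toSet.union hS))
      (Set.subset_union_right.trans (subset_sat X _)) (fun g v hv => sat_invariant X _ g hv)
    exact ⟨σ, h1, h2, h3, h4⟩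
  choose σ h1 h2 h3 h4 using hstep
  let 𝒰 : Ultrafilter (Finset V) := Ultrafilter.of Filter.atTop
  have hmem : ∀ v : V, ∀ᶠ F : Finset V in (𝒰 : Filter (Finset V)),
      v ∈ sat X ((F : Set V) ∪ S) := by
    intro v
    have : ∀ᶠ F : Finset V in (Filter.atTop : Filter (Finset V)),
        v ∈ sat X ((F : Set V) ∪ S) := by
      filter_upwards [Filter.eventually_ge_atTop ({v} : Finset V)] with F hF
      exact subset_sat X _ (Or.inl (hF (Finset.mem_singleton_self v)))
    exact (Ultrafilter.of_le _) this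
  have hval : ∀ v : V, ∃ g : X ≃g X, ∀ᶠ F in (𝒰 : Filter (Finset V)), σ F v = g v := by
    intro v
    have hfin : (Set.univ : Set (X ≃g X)).Finite := Set.finite_univ
    have := (Ultrafilter.finite_biUnion_mem_iff (f := 𝒰) hfin
      (s := fun g : X ≃g X => {F : Finset V | σ F v = g v})).1 (by
        have h := hmem v
        have hsub : {F : Finset V | v ∈ sat X ((F : Set V) ∪ S)} ⊆
            ⋃ g ∈ (Set.univ : Set (X ≃g X)), {F : Finset V | σ F v = g v} := by
          intro F hF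
          obtain ⟨g, hg⟩ := h1 F v hF
          simp only [Set.mem_iUnion, Set.mem_univ, Set.mem_ofPred_eq, exists_prop, true_and]
          exact ⟨g, hg.symm⟩
        exact Filter.mem_of_superset h hsub)
    obtain ⟨g, _, hg⟩ := this
    exact ⟨g, hg⟩
  choose γ hγ using hval
  let τ : V → V := fun v => γ v v
  have hτ : ∀ v, ∀ᶠ F in (𝒰 : Filter (Finset V)), σ F v = τ v := hγ
  have hadj : ∀ a b, X.Adj (τ a) (τ b) ↔ X.Adj a b := by
    intro a b
    obtain ⟨F, hF1, hF2, hF3, hF4⟩ := ((hτ a).and ((hτ b).and ((hmem a).and (hmem b)))).exists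
    rw [← hF1, ← hF2]
    exact h2 F a hF3 b hF4
  have hinj : Function.Injective τ := by
    intro a b hab
    obtain ⟨F, hF1, hF2, hF3, hF4⟩ := ((hτ a).and ((hτ b).and ((hmem a).and (hmem b)))).exists
    rw [← hF1, ← hF2] at hab
    exact h3 F a hF3 b hF4 hab
  have hsurj : Function.Surjective τ := by
    intro v
    have hO : (sat X {v}).Finite := sat_finite X (Set.finite_singleton v)
    have hmaps : Set.MapsTo τ (sat X {v}) (sat X {v}) := by
      intro w hw
      exact sat_invariant X _ (γ w) hw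
    have hs := ((hO.injOn_iff_bijOn_of_mapsTo hmaps).1 hinj.injOn).surjOn
    obtain ⟨w, _, hw⟩ := hs (subset_sat X _ (Set.mem_singleton v))
    exact ⟨w, hw⟩
  let g : X ≃g X :=
    { toEquiv := Equiv.ofBijective τ ⟨hinj, hsurj⟩
      map_rel_iff' := by
        intro a b
        exact hadj a b }
  have hall : ∀ᶠ F in (𝒰 : Filter (Finset V)), ∀ v ∈ S, σ F v = τ v :=
    (Filter.eventually_all_finite hS).2 (fun v _ => hτ v)
  obtain ⟨F, hF⟩ := hall.exists
  obtain ⟨v, hv, hne⟩ := h4 F g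
  exact hne (hF v hv).symm

end Compactness

/-! ### The finite graph: colours are encoded by pendant vertices -/

section Construction

variable {V : Type u}

theorem exists_color (X : SimpleGraph V) {T : Set V} (hT : T.Finite) :
    ∃ c : V → ℕ, (∀ (g : X ≃g X) v, c (g v) = c v) ∧
      ∀ a ∈ T, ∀ b ∈ T, c a = c b → ∃ g : X ≃g X, g a = b := by
  let r : Setoid V :=
    { r := fun a b => ∃ g : X ≃g X, g a = b
      iseqv :=
        { refl := fun a => ⟨1, rfl⟩
          symm := fun {a b} ⟨g, hg⟩ => ⟨g.symm, by rw [← hg]; exact g.symm_apply_apply a⟩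
          trans := fun {a b c} ⟨g, hg⟩ ⟨h, hh⟩ => ⟨h * g, by rw [← hh, ← hg]; rfl⟩ } }
  have hfin : ((Quotient.mk r) '' T).Finite := hT.image _
  obtain ⟨f, hf⟩ := Set.countable_iff_exists_injOn.1 hfin.countable
  refine ⟨fun v => f (Quotient.mk r v), fun g v => ?_, fun a ha b hb hab => ?_⟩
  · have : Quotient.mk r (g v) = Quotient.mk r v :=
      Quotient.sound ⟨g.symm, g.symm_apply_apply v⟩
    simp only [this]
  · exact Quotient.exact (hf ⟨a, ha, rfl⟩ ⟨b, hb, rfl⟩ hab)

variable (X : SimpleGraph V) (T : Set V) (c : V → ℕ)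

/-- Vertices `(v, 0)` (base vertices) and `(v, j)` with `1 ≤ j ≤ c v + 2` (leaves), `v ∈ T`. -/
abbrev WT : Type u := {p : V × ℕ // p.1 ∈ T ∧ p.2 ≤ c p.1 + 2}

/-- The graph induced by `X` on `T` with `c v + 2` pendant vertices attached at `v`. -/
def YG : SimpleGraph (WT T c) where
  Adj p q := (p.1.2 = 0 ∧ q.1.2 = 0 ∧ X.Adj p.1.1 q.1.1) ∨
    (p.1.1 = q.1.1 ∧ (p.1.2 = 0 ∧ q.1.2 ≠ 0 ∨ p.1.2 ≠ 0 ∧ q.1.2 = 0))
  symm := ⟨by
    rintro p q (⟨h1, h2, h3⟩ | ⟨h1, h2 | h2⟩)
    · exact Or.inl ⟨h2, h1, h3.symm⟩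
    · exact Or.inr ⟨h1.symm, Or.inr ⟨h2.2, h2.1⟩⟩
    · exact Or.inr ⟨h1.symm, Or.inl ⟨h2.2, h2.1⟩⟩⟩
  loopless := ⟨by
    rintro p (⟨h1, h2, h3⟩ | ⟨h1, h2 | h2⟩)
    · exact h3.ne rfl
    · exact h2.2 h2.1
    · exact h2.1 h2.2⟩

theorem WT_finite {T : Set V} (hT : T.Finite) : Finite (WT T c) := by
  have h : ({p : V × ℕ | p.1 ∈ T ∧ p.2 ≤ c p.1 + 2} : Set (V × ℕ)).Finite := by
    have : ({p : V × ℕ | p.1 ∈ T ∧ p.2 ≤ c p.1 + 2} : Set (V × ℕ)) ⊆
        ⋃ v ∈ T, ({v} : Set V) ×ˢ (Set.Iic (c v + 2)) := by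
      rintro ⟨v, j⟩ ⟨hv, hj⟩
      simp only [Set.mem_iUnion]
      exact ⟨v, hv, rfl, hj⟩
    exact (hT.biUnion (fun v _ => (Set.finite_singleton v).prod (Set.finite_Iic _))).subset this
  exact h

variable {X T c}

theorem leaf_adj {p q : WT T c} (hp : p.1.2 ≠ 0) (h : (YG X T c).Adj p q) :
    q.1.2 = 0 ∧ q.1.1 = p.1.1 := by
  rcases h with ⟨h1, _, _⟩ | ⟨h1, h2 | h2⟩
  · exact absurd h1 hp
  · exact absurd h2.1 hp
  · exact ⟨h2.2, h1.symm⟩

theorem base_iff (p : WT T c) :
    p.1.2 = 0 ↔ ∃ q r, q ≠ r ∧ (YG X T c).Adj p q ∧ (YG X T c).Adj p r := by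
  constructor
  · intro hp
    refine ⟨⟨(p.1.1, 1), p.2.1, by simp only; omega⟩, ⟨(p.1.1, 2), p.2.1, by simp only; omega⟩,
      ?_, ?_, ?_⟩
    · intro h
      have : (1 : ℕ) = 2 := congrArg (fun w : WT T c => w.1.2) h
      omega
    · exact Or.inr ⟨rfl, Or.inl ⟨hp, one_ne_zero⟩⟩
    · exact Or.inr ⟨rfl, Or.inl ⟨hp, two_ne_zero⟩⟩
  · rintro ⟨q, r, hqr, hq, hr⟩
    by_contra hp
    obtain ⟨h1, h2⟩ := leaf_adj hp hq
    obtain ⟨h3, h4⟩ := leaf_adj hp hr
    exact hqr (Subtype.ext (Prod.ext (h2.trans h4.symm) (h1.trans h3.symm)))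

theorem base_map (τ : YG X T c ≃g YG X T c) (p : WT T c) (hp : p.1.2 = 0) : (τ p).1.2 = 0 := by
  obtain ⟨q, r, hqr, hq, hr⟩ := (base_iff (X := X) p).1 hp
  exact (base_iff (X := X) (τ p)).2
    ⟨τ q, τ r, fun h => hqr (τ.injective h), τ.map_adj_iff.2 hq, τ.map_adj_iff.2 hr⟩

theorem leaf_map (τ : YG X T c ≃g YG X T c) (p : WT T c) (hp : p.1.2 ≠ 0) : (τ p).1.2 ≠ 0 := by
  intro h
  have := base_map τ.symm (τ p) h
  rw [τ.symm_apply_apply] at this
  exact hp this

/-- The base vertex at `v`. -/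
def bs {v : V} (hv : v ∈ T) : WT T c := ⟨(v, 0), hv, Nat.zero_le _⟩

theorem leaf_fst (τ : YG X T c ≃g YG X T c) {v : V} (hv : v ∈ T) (p : WT T c) (hp : p.1.2 ≠ 0)
    (hpv : p.1.1 = v) : (τ p).1.1 = (τ (bs hv)).1.1 := by
  have hadj : (YG X T c).Adj p (bs hv) := Or.inr ⟨hpv, Or.inr ⟨hp, rfl⟩⟩
  have h := leaf_adj (leaf_map τ p hp) (τ.map_adj_iff.2 hadj)
  exact h.2.symm

theorem color_le (τ : YG X T c ≃g YG X T c) {v : V} (hv : v ∈ T) :
    c v ≤ c (τ (bs hv)).1.1 := by
  let lf : Fin (c v + 2) → WT T c := fun j => ⟨(v, j.1 + 1), hv, by have := j.2; simp only; omega⟩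
  have hlf : ∀ j, (lf j).1.2 ≠ 0 := fun j => Nat.succ_ne_zero _
  have h1 : ∀ j, (τ (lf j)).1.1 = (τ (bs hv)).1.1 := fun j => leaf_fst τ hv _ (hlf j) rfl
  have h2 : ∀ j, (τ (lf j)).1.2 ≤ c (τ (bs hv)).1.1 + 2 := by
    intro j
    have := (τ (lf j)).2.2
    rwa [h1 j] at this
  have h3 : ∀ j, (τ (lf j)).1.2 ≠ 0 := fun j => leaf_map τ _ (hlf j)
  let f : Fin (c v + 2) → Fin (c (τ (bs hv)).1.1 + 2) :=
    fun j => ⟨(τ (lf j)).1.2 - 1, by have := h2 j; have := h3 j; omega⟩
  have hf : Function.Injective f := by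
    intro i j hij
    have h4 : (τ (lf i)).1.2 - 1 = (τ (lf j)).1.2 - 1 := congrArg Fin.val hij
    have h5 : (τ (lf i)).1.2 = (τ (lf j)).1.2 := by
      have := h3 i
      have := h3 j
      omega
    have h6 : τ (lf i) = τ (lf j) := Subtype.ext (Prod.ext ((h1 i).trans (h1 j).symm) h5)
    have h7 : lf i = lf j := τ.injective h6
    have h8 : i.1 + 1 = j.1 + 1 := congrArg (fun w : WT T c => w.1.2) h7
    exact Fin.ext (by omega)
  have := Fintype.card_le_of_injective f hf
  simp only [Fintype.card_fin] at this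
  omega

theorem bs_map (τ : YG X T c ≃g YG X T c) {v : V} (hv : v ∈ T) :
    τ (bs hv) = bs (τ (bs hv)).2.1 :=
  Subtype.ext (Prod.ext rfl (base_map τ _ rfl))

theorem color_eq (τ : YG X T c ≃g YG X T c) {v : V} (hv : v ∈ T) :
    c (τ (bs hv)).1.1 = c v := by
  refine le_antisymm ?_ (color_le τ hv)
  have h := color_le τ.symm (τ (bs hv)).2.1
  rw [← bs_map τ hv, τ.symm_apply_apply] at h
  exact h

open Classical in
/-- The map induced on `V` by an automorphism of `Y`. -/
noncomputable def ind (τ : YG X T c ≃g YG X T c) (v : V) : V :=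
  if hv : v ∈ T then (τ (bs hv)).1.1 else v

theorem ind_of_mem (τ : YG X T c ≃g YG X T c) {v : V} (hv : v ∈ T) :
    ind τ v = (τ (bs hv)).1.1 := dif_pos hv

theorem ind_mem (τ : YG X T c ≃g YG X T c) {v : V} (hv : v ∈ T) : ind τ v ∈ T := by
  rw [ind_of_mem τ hv]
  exact (τ (bs hv)).2.1

theorem ind_mul (τ τ' : YG X T c ≃g YG X T c) {v : V} (hv : v ∈ T) :
    ind (τ * τ') v = ind τ (ind τ' v) := by
  rw [ind_of_mem τ (ind_mem τ' hv), ind_of_mem _ hv]
  have h : (τ * τ') (bs hv) = τ (bs (ind_mem τ' hv)) := by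
    have h1 : (τ * τ') (bs hv) = τ (τ' (bs hv)) := rfl
    have h2 : (bs (ind_mem τ' hv) : WT T c) = τ' (bs hv) := by
      rw [bs_map τ' hv]
      exact Subtype.ext (Prod.ext (ind_of_mem τ' hv) rfl)
    rw [h1, h2]
  rw [h]

theorem ind_adj (τ : YG X T c ≃g YG X T c) {a b : V} (ha : a ∈ T) (hb : b ∈ T) :
    X.Adj (ind τ a) (ind τ b) ↔ X.Adj a b := by
  have key : ∀ {a b : V} (ha : a ∈ T) (hb : b ∈ T),
      (YG X T c).Adj (bs ha) (bs hb) ↔ X.Adj a b := by
    intro a b ha hb
    constructor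
    · rintro (⟨_, _, h⟩ | ⟨_, h | h⟩)
      · exact h
      · exact absurd rfl h.2
      · exact absurd rfl h.1
    · intro h
      exact Or.inl ⟨rfl, rfl, h⟩
  have h := τ.map_adj_iff (v := bs ha) (w := bs hb)
  rw [bs_map τ ha, bs_map τ hb, key, key] at h
  rw [ind_of_mem τ ha, ind_of_mem τ hb]
  exact h

theorem ind_inj (τ : YG X T c ≃g YG X T c) {a b : V} (ha : a ∈ T) (hb : b ∈ T)
    (h : ind τ a = ind τ b) : a = b := by
  rw [ind_of_mem τ ha, ind_of_mem τ hb] at h
  have h1 : τ (bs ha) = τ (bs hb) := by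
    rw [bs_map τ ha, bs_map τ hb]
    exact Subtype.ext (Prod.ext h rfl)
  have h2 : (bs ha : WT T c) = bs hb := τ.injective h1
  exact congrArg (fun w : WT T c => w.1.1) h2

/-- The automorphism of `Y` induced by an automorphism of `X`. -/
def lift (hT : ∀ g : X ≃g X, ∀ v ∈ T, g v ∈ T) (hc : ∀ (g : X ≃g X) v, c (g v) = c v)
    (g : X ≃g X) : YG X T c ≃g YG X T c where
  toFun p := ⟨(g p.1.1, p.1.2), hT g _ p.2.1, by simp only [hc]; exact p.2.2⟩
  invFun p := ⟨(g.symm p.1.1, p.1.2), hT g.symm _ p.2.1, by simp only [hc]; exact p.2.2⟩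
  left_inv p := Subtype.ext (Prod.ext (g.symm_apply_apply _) rfl)
  right_inv p := Subtype.ext (Prod.ext (g.apply_symm_apply _) rfl)
  map_rel_iff' := by
    intro p q
    change ((p.1.2 = 0 ∧ q.1.2 = 0 ∧ X.Adj (g p.1.1) (g q.1.1)) ∨
      (g p.1.1 = g q.1.1 ∧ (p.1.2 = 0 ∧ q.1.2 ≠ 0 ∨ p.1.2 ≠ 0 ∧ q.1.2 = 0))) ↔
      ((p.1.2 = 0 ∧ q.1.2 = 0 ∧ X.Adj p.1.1 q.1.1) ∨
      (p.1.1 = q.1.1 ∧ (p.1.2 = 0 ∧ q.1.2 ≠ 0 ∨ p.1.2 ≠ 0 ∧ q.1.2 = 0)))
    rw [g.map_adj_iff, g.injective.eq_iff]

/-! ### `Y` has no new clique models -/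

theorem model_down {k : ℕ} (hk : 3 ≤ k) (h : HasModel k (YG X T c)) : HasModel k X := by
  obtain ⟨B, hconn, hdisj, hadj⟩ := h
  have hA : ∀ i, ∀ p ∈ B i, ∃ q ∈ B i, q.1.2 = 0 ∧ q.1.1 = p.1.1 := by
    intro i p hp
    by_cases hp0 : p.1.2 = 0
    · exact ⟨p, hp, hp0, rfl⟩
    by_cases hex : ∃ p' ∈ B i, p' ≠ p
    · obtain ⟨p', hp', hne⟩ := hex
      obtain ⟨w⟩ := (hconn i).preconnected ⟨p, hp⟩ ⟨p', hp'⟩
      cases w with
      | nil => exact absurd rfl hne
      | @cons _ r _ hr _ =>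
        have hr' : (YG X T c).Adj p r.1 := hr
        obtain ⟨h1, h2⟩ := leaf_adj hp0 hr'
        exact ⟨r.1, r.2, h1, h2⟩
    · push Not at hex
      have hj : ∃ j1 j2 : Fin k, j1 ≠ i ∧ j2 ≠ i ∧ j1 ≠ j2 := by
        have hi := i.2
        by_cases hi0 : i.1 = 0
        · refine ⟨⟨1, by omega⟩, ⟨2, by omega⟩, ?_, ?_, ?_⟩
          · intro h; have := congrArg Fin.val h; simp only at this; omega
          · intro h; have := congrArg Fin.val h; simp only at this; omega
          · intro h; have := congrArg Fin.val h; simp only at this; omega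
        · by_cases hi1 : i.1 = 1
          · refine ⟨⟨0, by omega⟩, ⟨2, by omega⟩, ?_, ?_, ?_⟩
            · intro h; have := congrArg Fin.val h; simp only at this; omega
            · intro h; have := congrArg Fin.val h; simp only at this; omega
            · intro h; have := congrArg Fin.val h; simp only at this; omega
          · refine ⟨⟨0, by omega⟩, ⟨1, by omega⟩, ?_, ?_, ?_⟩
            · intro h; have := congrArg Fin.val h; simp only at this; omega
            · intro h; have := congrArg Fin.val h; simp only at this; omega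
            · intro h; have := congrArg Fin.val h; simp only at this; omega
      obtain ⟨j1, j2, h1, h2, h12⟩ := hj
      obtain ⟨x1, hx1, y1, hy1, hxy1⟩ := hadj i j1 h1.symm
      obtain ⟨x2, hx2, y2, hy2, hxy2⟩ := hadj i j2 h2.symm
      rw [hex x1 hx1] at hxy1
      rw [hex x2 hx2] at hxy2
      obtain ⟨h3, h4⟩ := leaf_adj hp0 hxy1
      obtain ⟨h5, h6⟩ := leaf_adj hp0 hxy2
      have : y1 = y2 := Subtype.ext (Prod.ext (h4.trans h6.symm) (h3.trans h5.symm))
      subst this
      exact absurd hy2 (Set.disjoint_left.1 (hdisj j1 j2 h12) hy1)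
  let B' : Fin k → Set V := fun i => {v | ∃ q ∈ B i, q.1.2 = 0 ∧ q.1.1 = v}
  refine ⟨B', fun i => ?_, fun i j hij => ?_, fun i j hij => ?_⟩
  · let pr : B i → B' i := fun p => ⟨p.1.1.1, hA i p.1 p.2⟩
    have hwalk : ∀ p q : B i, ((YG X T c).induce (B i)).Walk p q →
        (X.induce (B' i)).Reachable (pr p) (pr q) := by
      intro p q w
      induction w with
      | nil => exact SimpleGraph.Reachable.refl _
      | cons hr _ ih =>
        rename_i a b d _
        refine SimpleGraph.Reachable.trans ?_ ih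
        have hr' : (YG X T c).Adj a.1 b.1 := hr
        rcases hr' with ⟨_, _, h⟩ | ⟨h, _⟩
        · have h' : (X.induce (B' i)).Adj (pr a) (pr b) := h
          exact h'.reachable
        · have h' : pr a = pr b := Subtype.ext h
          rw [h']
    have hne : Nonempty (B' i) := by
      obtain ⟨p⟩ := (hconn i).nonempty
      exact ⟨pr p⟩
    refine ⟨?_⟩
    rintro ⟨a, p, hp, hp0, rfl⟩ ⟨b, q, hq, hq0, rfl⟩
    obtain ⟨w⟩ := (hconn i).preconnected ⟨p, hp⟩ ⟨q, hq⟩
    exact hwalk _ _ w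
  · rw [Set.disjoint_left]
    rintro v ⟨p, hp, hp0, hpv⟩ ⟨q, hq, hq0, hqv⟩
    have : p = q := Subtype.ext (Prod.ext (hpv.trans hqv.symm) (hp0.trans hq0.symm))
    subst this
    exact Set.disjoint_left.1 (hdisj i j hij) hp hq
  · obtain ⟨p, hp, q, hq, hpq⟩ := hadj i j hij
    rcases hpq with ⟨h1, h2, h3⟩ | ⟨h1, _⟩
    · exact ⟨p.1.1, ⟨p, hp, h1, rfl⟩, q.1.1, ⟨q, hq, h2, rfl⟩, h3⟩
    · exfalso
      obtain ⟨p', hp', hp0, hpv⟩ := hA i p hp
      obtain ⟨q', hq', hq0, hqv⟩ := hA j q hq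
      have : p' = q' :=
        Subtype.ext (Prod.ext (hpv.trans (h1.trans hqv.symm)) (hp0.trans hq0.symm))
      subst this
      exact Set.disjoint_left.1 (hdisj i j hij) hp' hq'

end Construction

/-! ### Conclusion -/

/-- Transport of automorphism groups along an isomorphism. -/
def conj {V : Type u} {W : Type v} {X : SimpleGraph V} {Y : SimpleGraph W} (e : X ≃g Y) :
    (X ≃g X) ≃* (Y ≃g Y) where
  toFun g := (e.symm.trans g).trans e
  invFun h := (e.trans h).trans e.symm
  left_inv g := by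
    ext v
    simp
  right_inv h := by
    ext v
    simp
  map_mul' g h := by
    ext v
    change e (g (h (e.symm v))) = e (g (e.symm (e (h (e.symm v)))))
    rw [e.symm_apply_apply]

/-- A finite graph may be replaced by a graph on `Fin n`. -/
theorem to_fin (k : ℕ) {V : Type u} (X : SimpleGraph V) {W : Type u} [Finite W]
    (Y : SimpleGraph W) (hY : ¬ HasModel k Y) (π : (Y ≃g Y) →* (X ≃g X))
    (σ : (X ≃g X) →* (Y ≃g Y)) (h : π.comp σ = MonoidHom.id (X ≃g X)) :
    ∃ (n : ℕ) (Y' : SimpleGraph (Fin n)), ¬ HasSubcontractionToK k Y' ∧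
      ∃ (π : (Y' ≃g Y') →* (X ≃g X)) (σ : (X ≃g X) →* (Y' ≃g Y')),
        π.comp σ = MonoidHom.id (X ≃g X) := by
  obtain ⟨n, ⟨e⟩⟩ := Finite.exists_equiv_fin W
  let Y' : SimpleGraph (Fin n) := Y.comap e.symm
  let E : Y' ≃g Y := { toEquiv := e.symm, map_rel_iff' := Iff.rfl }
  refine ⟨n, Y', fun hcon => hY (hasModel_iso E (hasModel_of_hasSub hcon)),
    π.comp (conj E).toMonoidHom, (conj E.symm).toMonoidHom.comp σ, ?_⟩
  ext g v
  have h1 : (conj E) ((conj E.symm) (σ g)) = σ g := by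
    ext w
    change E (E.symm ((σ g) (E (E.symm w)))) = σ g w
    rw [E.apply_symm_apply, E.apply_symm_apply]
  have h2 : π (σ g) = g := by
    have := congrArg (fun φ => φ g) h
    exact this
  change (π ((conj E) ((conj E.symm) (σ g)))) v = g v
  rw [h1, h2]

theorem edgeless_finite {V : Type u} (X : SimpleGraph V) [Finite (X ≃g X)]
    (h : ∀ a b, ¬ X.Adj a b) : Finite V := by
  classical
  by_contra hinf
  rw [not_finite_iff_infinite] at hinf
  obtain ⟨a⟩ : Nonempty V := inferInstance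
  let f : V → (X ≃g X) := fun b =>
    { toEquiv := Equiv.swap a b
      map_rel_iff' := by
        intro x y
        exact ⟨fun hh => absurd hh (h _ _), fun hh => absurd hh (h _ _)⟩ }
  have hf : Function.Injective f := by
    intro b d hbd
    have h1 : (f b) a = (f d) a := by rw [hbd]
    have h2 : Equiv.swap a b a = Equiv.swap a d a := h1
    rwa [Equiv.swap_apply_left, Equiv.swap_apply_left] at h2
  exact (Infinite.of_injective f hf).not_finite inferInstance

/-- **Finite witnesses.** Let `X` be a graph, finite or infinite, whose automorphism group is finite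
and which has no subcontraction to `K_k`. Then there is a *finite* graph `Y` without subcontraction to
`K_k` such that `Aut X` is a retract of `Aut Y`: there are homomorphisms `σ : Aut X → Aut Y` and
`π : Aut Y → Aut X` with `π ∘ σ = id`. -/
theorem result (k : ℕ) {V : Type u} (X : SimpleGraph V) [Finite (X ≃g X)]
    (hX : ¬ HasSubcontractionToK k X) :
    ∃ (n : ℕ) (Y : SimpleGraph (Fin n)), ¬ HasSubcontractionToK k Y ∧
      ∃ (π : (Y ≃g Y) →* (X ≃g X)) (σ : (X ≃g X) →* (Y ≃g Y)),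
        π.comp σ = MonoidHom.id (X ≃g X) := by
  classical
  have hX' : ¬ HasModel k X := fun h => hX (hasSub_of_hasModel h)
  by_cases hedge : ∃ a b, X.Adj a b
  · obtain ⟨a, b, hab⟩ := hedge
    have hk : 3 ≤ k := by
      by_contra hk
      exact hX' (hasModel_of_edge (by omega) hab)
    -- a finite invariant set on which the group acts faithfully
    have hS : ∃ S : Set V, S.Finite ∧ (∀ g : X ≃g X, ∀ v ∈ S, g v ∈ S) ∧
        ∀ g h : X ≃g X, (∀ v ∈ S, g v = h v) → g = h := by
      have hx : ∀ p : (X ≃g X) × (X ≃g X), ∃ v : V, p.1 ≠ p.2 → p.1 v ≠ p.2 v := by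
        intro p
        by_cases hp : p.1 = p.2
        · exact ⟨a, fun h => absurd hp h⟩
        · by_contra hcon
          push Not at hcon
          exact hp (RelIso.ext (fun v => (hcon v).2))
      choose x hx using hx
      refine ⟨sat X (Set.range x), sat_finite X (Set.finite_range x),
        fun g v hv => sat_invariant X _ g hv, fun g h hgh => ?_⟩
      by_contra hne
      exact hx (g, h) hne (hgh _ (subset_sat X _ ⟨(g, h), rfl⟩))
    obtain ⟨S, hSfin, hSinv, hSfaith⟩ := hS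
    obtain ⟨T, hTfin, hST, hTinv, hT⟩ := compactness X S hSfin
    obtain ⟨c, hc1, hc2⟩ := exists_color X hTfin
    have : Finite (WT T c) := WT_finite c hTfin
    have hex : ∀ τ : YG X T c ≃g YG X T c, ∃ g : X ≃g X, ∀ v ∈ S, g v = ind τ v := by
      intro τ
      refine hT (ind τ) ?_ ?_ ?_
      · intro v hv
        exact hc2 v hv _ (ind_mem τ hv) (by rw [ind_of_mem τ hv]; exact (color_eq τ hv).symm)
      · intro a ha b hb
        exact ind_adj τ ha hb
      · intro a ha b hb hab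
        exact ind_inj τ ha hb hab
    choose P hP using hex
    let π : (YG X T c ≃g YG X T c) →* (X ≃g X) := MonoidHom.mk' P (by
      intro τ τ'
      refine hSfaith _ _ (fun v hv => ?_)
      rw [hP (τ * τ') v hv, ind_mul τ τ' (hST hv), ← hP τ' v hv,
        ← hP τ (P τ' v) (hSinv _ v hv)]
      rfl)
    let σ : (X ≃g X) →* (YG X T c ≃g YG X T c) := MonoidHom.mk' (lift hTinv hc1) (by
      intro g h
      rfl)
    refine to_fin k X (YG X T c) (fun h => hX' (model_down hk h)) π σ ?_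
    ext1 g
    refine hSfaith _ _ (fun v hv => ?_)
    change P (lift hTinv hc1 g) v = g v
    rw [hP _ v hv, ind_of_mem _ (hST hv)]
    rfl
  · push Not at hedge
    have := edgeless_finite X hedge
    exact to_fin k X X hX' (MonoidHom.id _) (MonoidHom.id _) rfl

end Pool.Agent.Results.MP_d97d98_co.FiniteWitness
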