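import Pool.Agent.BAB67.Finite
import Pool.Agent.BAB67.Witness

/-!
# MP_d97d98_co : finite simple automorphism groups of minor-closed graph classes

For every `k` there is `N` such that no graph (finite or infinite) without subcontraction to `K_k` has a
non-cyclic finite simple group of order greater than `N` as its automorphism group. Equivalently, a
subcontraction-closed class of graphs which does not contain every finite graph represents only finitely many
non-cyclic finite simple groups, up to isomorphism.

The proof is in `Pool/Agent/BAB67` (see the plan in `Pool/Agent/BAB67/Defs.lean`).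
-/

set_option autoImplicit false

namespace Pool.Agent.Results.MP_d97d98_co.SimpleGroups

universe u v

/-- `f` is a contraction of the graph `X` onto the graph `Y`: two distinct vertices `a, b` of `Y` are
adjacent exactly when they are the images of two adjacent vertices of `X`, and every fibre of `f`
induces a (nonempty) connected subgraph of `X`. -/
def IsContraction {V W : Type u} (X : SimpleGraph V) (Y : SimpleGraph W) (f : V → W) : Prop :=
  (∀ a b : W, Y.Adj a b ↔ a ≠ b ∧ ∃ x y : V, f x = a ∧ f y = b ∧ X.Adj x y) ∧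
  ∀ a : W, (X.induce (f ⁻¹' {a})).Connected

/-- `Z` is isomorphic to a subcontraction of `X`, that is, to a subgraph of some contraction of `X`. -/
def IsSubcontraction {U V : Type u} (Z : SimpleGraph U) (X : SimpleGraph V) : Prop :=
  ∃ (W : Type u) (Y : SimpleGraph W) (f : V → W) (e : U → W),
    IsContraction X Y f ∧ Function.Injective e ∧ ∀ a b : U, Z.Adj a b → Y.Adj (e a) (e b)

/-- The complete graph on `k` vertices. -/
def K (k : ℕ) : SimpleGraph (ULift.{u} (Fin k)) := ⊤

/-- The class `C` of graphs is subcontraction closed. -/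
def SubcontractionClosed (C : ∀ V : Type u, SimpleGraph V → Prop) : Prop :=
  ∀ (U V : Type u) (Z : SimpleGraph U) (X : SimpleGraph V), C V X → IsSubcontraction Z X → C U Z

/-- The class `C` represents the group `G`. -/
def Represents (C : ∀ V : Type u, SimpleGraph V → Prop) (G : Type v) [Group G] : Prop :=
  ∃ (V : Type u) (X : SimpleGraph V), C V X ∧ Nonempty ((X ≃g X) ≃* G)

/-- A finite simple group which is abelian is cyclic of prime order. -/
theorem nc_of_not_prime {G : Type v} [Group G] [Finite G] [IsSimpleGroup G] (h : ¬ (Nat.card G).Prime) :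
    BAB67.NC G := by
  by_contra hcon
  have hcomm : ∀ a b : G, a * b = b * a := by
    intro a b
    by_contra hab
    exact hcon ⟨a, b, hab⟩
  let _ : CommGroup G := { ‹Group G› with mul_comm := hcomm }
  exact h IsSimpleGroup.prime_card

theorem nc_of_not_cyclic {G : Type v} [Group G] [Finite G] [IsSimpleGroup G] (h : ¬ IsCyclic G) :
    BAB67.NC G := by
  by_contra hcon
  have hcomm : ∀ a b : G, a * b = b * a := by
    intro a b
    by_contra hab
    exact hcon ⟨a, b, hab⟩
  let _ : CommGroup G := { ‹Group G› with mul_comm := hcomm }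
  exact h (inferInstanceAs (IsCyclic G))

/-- The bound for one graph. -/
theorem bound (k : ℕ) : ∃ N : ℕ, ∀ (G : Type v) [Group G] [Finite G] [IsSimpleGroup G], BAB67.NC G →
    ∀ (V : Type u) (X : SimpleGraph V), Nonempty ((X ≃g X) ≃* G) →
      ¬ BAB67.Witness.HasSubcontractionToK k X → Nat.card G ≤ N := by
  obtain ⟨N, hN⟩ := BAB67.finite_bound.{v} k
  refine ⟨N, ?_⟩
  intro G _ _ _ hG V X hX hk
  obtain ⟨φ⟩ := hX
  have : Finite (X ≃g X) := Finite.of_equiv G φ.symm.toEquiv
  obtain ⟨n, Y, hY, π, σ, hπσ⟩ := BAB67.Witness.result k X hk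
  have hY' : ¬ BAB67.HasModel k Y := fun h => hY (BAB67.Witness.hasSub_of_hasModel h)
  let κ : Fin n → Unit := fun _ => ()
  let ι : BAB67.CAut Y κ →* (Y ≃g Y) :=
    { toFun := fun g => { toEquiv := g.1, map_rel_iff' := fun {a b} => g.2.1 a b }
      map_one' := rfl
      map_mul' := fun _ _ => rfl }
  refine hN G hG (Fin n) Unit Y κ hY' ⟨(φ.toMonoidHom.comp π).comp ι, ?_⟩
  intro x
  refine ⟨⟨(σ (φ.symm x)).toEquiv, fun a b => (σ (φ.symm x)).map_adj_iff, fun _ => rfl⟩, ?_⟩
  have h1 : π (σ (φ.symm x)) = φ.symm x := congrArg (fun ψ => ψ (φ.symm x)) hπσ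
  change φ (π (σ (φ.symm x))) = x
  rw [h1, φ.apply_symm_apply]

/-- Having `K k` as a subcontraction. -/
theorem sub_iff {k : ℕ} {V : Type u} (X : SimpleGraph V) :
    IsSubcontraction (K k) X ↔ BAB67.Witness.HasSubcontractionToK k X := by
  constructor
  · rintro ⟨W, Y, f, e, h1, h2, h3⟩
    refine ⟨W, Y, f, fun i => e (ULift.up i), h1, fun i j hij => ?_, fun i j hij => ?_⟩
    · exact ULift.up_injective (h2 hij)
    · refine h3 _ _ ?_
      intro h
      exact hij (ULift.up_injective h)
  · rintro ⟨W, Y, f, e, h1, h2, h3⟩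
    refine ⟨W, Y, f, fun i => e i.down, h1, fun i j hij => ULift.down_injective (h2 hij), fun i j hij => ?_⟩
    refine h3 _ _ ?_
    intro h
    exact hij (ULift.down_injective h)

/-- Up to isomorphism there are finitely many groups of order at most `N`. -/
theorem finite_list (N : ℕ) : ∃ (n : ℕ) (H : Fin n → Type) (_ : ∀ i, Group (H i)),
    ∀ (G : Type v) [Group G] [Finite G], Nat.card G ≤ N → ∃ i, Nonempty (G ≃* H i) := by
  have hfin : ∀ m : ℕ, Finite (Group (Fin m)) := by
    intro m
    refine Finite.of_injective (fun g : Group (Fin m) => fun a b : Fin m => g.mul a b) ?_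
    intro g g' h
    apply Group.ext
    ext a b
    exact congrArg Fin.val (congrFun (congrFun h a) b)
  have : Finite (Σ m : Fin (N + 1), Group (Fin m)) := inferInstance
  obtain ⟨n, ⟨e⟩⟩ := Finite.exists_equiv_fin (Σ m : Fin (N + 1), Group (Fin m))
  refine ⟨n, fun i => Fin (e.symm i).1, fun i => (e.symm i).2, ?_⟩
  intro G _ _ hG
  let ε : G ≃ Fin (Nat.card G) := Finite.equivFin G
  let g : Group (Fin (Nat.card G)) := ε.symm.group
  have key : ∀ s : (Σ m : Fin (N + 1), Group (Fin m)), s = ⟨⟨Nat.card G, Nat.lt_succ_of_le hG⟩, g⟩ →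
      Nonempty (@MulEquiv G (Fin s.1) _ s.2.toMonoid.toMulOneClass.toMul) := by
    rintro _ rfl
    refine ⟨@MulEquiv.mk G (Fin (Nat.card G)) _ g.toMonoid.toMulOneClass.toMul ε ?_⟩
    intro a b
    change ε (a * b) = ε (ε.symm (ε a) * ε.symm (ε b))
    rw [ε.symm_apply_apply, ε.symm_apply_apply]
  exact ⟨e ⟨⟨Nat.card G, Nat.lt_succ_of_le hG⟩, g⟩, key _ (e.symm_apply_apply _)⟩

/-- **Finite simple automorphism groups of minor-closed graph classes.**
(1) For every `k` there is `N` such that, if `G` is a finite simple group whose order is composite and exceeds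
`N`, then every graph `X`, finite or infinite, with `Aut X ≅ G` has a subcontraction to `K_k`.
(2) If `C` is a subcontraction closed class of graphs which does not contain every finite graph then, up to
isomorphism, only finitely many non-cyclic finite simple groups are represented by `C`. -/
theorem result :
    (∀ k : ℕ, ∃ N : ℕ, ∀ (G : Type v) [Group G] [Finite G] [IsSimpleGroup G],
      ¬ (Nat.card G).Prime → N < Nat.card G →
      ∀ (V : Type u) (X : SimpleGraph V), Nonempty ((X ≃g X) ≃* G) → IsSubcontraction (K k) X) ∧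
    ∀ C : ∀ V : Type u, SimpleGraph V → Prop, SubcontractionClosed C →
      (∃ (U : Type u) (_ : Finite U) (F : SimpleGraph U), ¬ C U F) →
      ∃ (n : ℕ) (H : Fin n → Type) (_ : ∀ i, Group (H i)),
        ∀ (G : Type v) [Group G] [Finite G] [IsSimpleGroup G], ¬ IsCyclic G → Represents C G →
          ∃ i, Nonempty (G ≃* H i) := by
  constructor
  · intro k
    obtain ⟨N, hN⟩ := bound.{u, v} k
    refine ⟨N, ?_⟩
    intro G _ _ _ hG hcard V X hX
    by_contra hcon
    have h := hN G (nc_of_not_prime hG) V X hX (fun h => hcon ((sub_iff X).2 h))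
    omega
  · intro C hC hF
    obtain ⟨U, hU, F, hF⟩ := hF
    obtain ⟨k, ⟨e⟩⟩ := Finite.exists_equiv_fin U
    obtain ⟨N, hN⟩ := bound.{u, v} k
    obtain ⟨n, H, hH, hlist⟩ := finite_list.{v} N
    refine ⟨n, H, hH, ?_⟩
    intro G _ _ _ hG hrep
    obtain ⟨V, X, hX, hGX⟩ := hrep
    refine hlist G (hN G (nc_of_not_cyclic hG) V X hGX ?_)
    intro hsub
    refine hF (hC U V F X hX ?_)
    obtain ⟨W, Y, f, e', h1, h2, h3⟩ := (sub_iff X).2 hsub
    refine ⟨W, Y, f, fun a => e' (ULift.up (e a)), h1, ?_, ?_⟩
    · intro a b hab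
      exact e.injective (ULift.up_injective (h2 hab))
    · intro a b hab
      refine h3 _ _ ?_
      intro h
      exact hab.ne (e.injective (ULift.up_injective h))

end Pool.Agent.Results.MP_d97d98_co.SimpleGroups
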